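import Pool.Agent.TH685.TI.FAvg
import Pool.Agent.TH685.TI.Cs

/-!
# High moments of the singular factor over the differences of the values of `x² + b x + c` at primes
-/

set_option autoImplicit false
set_option maxHeartbeats 1000000

namespace Pool.Agent.Zk45.DR

open Finset Pool.Agent.H197R2.PG
open Pool.Agent.TH685.PairSig (pair_bound)
open Pool.Agent.TH685.Sq (gg_mul_le)
open Pool.Agent.TH685.FAvg (u u_cast u_dist)

lemma moment_m : ∃ C : ℝ, 1 ≤ C ∧ ∀ m : ℕ, 3 ≤ m → 1 ≤ (C * Real.log m) ∧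
    ∀ Y : ℕ, ∑ h ∈ Icc 1 Y, gg h ^ m ≤ (C * Real.log m) ^ m * Y := by
  obtain ⟨C, hC, hE⟩ := euler_le
  refine ⟨C, hC, fun m hm => ⟨?_, fun Y => ?_⟩⟩
  · have hl3 : 1 ≤ Real.log (m : ℝ) := by
      rw [Real.le_log_iff_exp_le (by positivity)]
      have := Real.exp_one_lt_d9
      have h3 : (3 : ℝ) ≤ m := by exact_mod_cast hm
      linarith
    nlinarith
  · refine (moment_le m Y).trans ?_
    rw [mul_comm]
    exact mul_le_mul_of_nonneg_right (hE m Y hm) (Nat.cast_nonneg _)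

theorem avg_diff (K : ℝ) (hK : 1 ≤ K) (hpair : ∀ x : ℕ, 2 ≤ x → ∀ σ : ℤ, (σ = 1 ∨ σ = -1) → ∀ h : ℕ,
    1 ≤ h → (Set.ncard {t : ℕ | t ≤ x ∧ t.Prime ∧ (Int.natAbs (σ * t + h)).Prime} : ℝ) ≤
      K * (x / Real.log x ^ 2) * gg h ^ 2) (j : ℕ) (D : ℝ)
    (hmom : ∀ Y : ℕ, ∑ h ∈ Icc 1 Y, gg h ^ (j + 2) ≤ D * Y) (M : ℕ) (S : Finset ℕ) (hM : 2 ≤ M)
    (hS : ∀ p ∈ S, p.Prime ∧ p ≤ M) :
    ∑ z ∈ S.offDiag, gg (Nat.dist z.1 z.2) ^ j ≤ 2 * K * D * (M / Real.log M) ^ 2 := by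
  classical
  have hMr : (2 : ℝ) ≤ M := by exact_mod_cast hM
  have hl : 0 < Real.log M := Real.log_pos (by linarith)
  have hg0 : ∀ n, 0 ≤ gg n := fun n => by linarith [one_le_gg n]
  have h1 := Pool.Agent.TH685.TI.sum_offDiag_le S M (fun a ha b hb hab => by
    have h2 := (hS a ha).2
    have h3 := (hS b hb).2
    rw [mem_Icc]
    refine ⟨Nat.dist_pos_of_ne hab, ?_⟩
    rcases le_total a b with h | h
    · rw [Nat.dist_eq_sub_of_le h]; omega
    · rw [Nat.dist_eq_sub_of_le_right h]; omega) (fun n => gg n ^ j) (fun n => pow_nonneg (hg0 n) _)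
  refine h1.trans ?_
  have h2 : ∀ h ∈ Icc 1 M, 2 * (gg h ^ j * (#(S.filter (fun m => m + h ∈ S)) : ℝ)) ≤
      2 * (K * (M / Real.log M ^ 2)) * gg h ^ (j + 2) := by
    intro h hh
    rw [mem_Icc] at hh
    have h3 := hpair M hM 1 (Or.inl rfl) h hh.1
    have h4 : ((S.filter (fun m => m + h ∈ S) : Finset ℕ) : Set ℕ) ⊆
        {t : ℕ | t ≤ M ∧ t.Prime ∧ (Int.natAbs (1 * t + h)).Prime} := by
      intro t ht
      rw [mem_coe, mem_filter] at ht
      refine ⟨(hS t ht.1).2, (hS t ht.1).1, ?_⟩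
      have e : Int.natAbs (1 * (t : ℤ) + h) = t + h := by omega
      rw [e]
      exact (hS _ ht.2).1
    have h5 := Set.ncard_le_ncard h4 ((Set.finite_Iic M).subset (fun t ht => ht.1))
    rw [Set.ncard_coe_finset] at h5
    have h6 : (#(S.filter (fun m => m + h ∈ S)) : ℝ) ≤ K * (M / Real.log M ^ 2) * gg h ^ 2 :=
      le_trans (by exact_mod_cast h5) h3
    have hg : 0 ≤ gg h ^ j := pow_nonneg (hg0 h) _
    calc 2 * (gg h ^ j * (#(S.filter (fun m => m + h ∈ S)) : ℝ)) ≤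
          2 * (gg h ^ j * (K * (M / Real.log M ^ 2) * gg h ^ 2)) := by gcongr
      _ = _ := by rw [pow_add]; ring
  refine (Finset.sum_le_sum h2).trans ?_
  rw [← Finset.mul_sum]
  have h3 := hmom M
  calc 2 * (K * (M / Real.log M ^ 2)) * ∑ h ∈ Icc 1 M, gg h ^ (j + 2) ≤
        2 * (K * (M / Real.log M ^ 2)) * (D * M) := by gcongr
    _ = 2 * K * D * (M / Real.log M) ^ 2 := by field_simp

lemma mix {x y : ℝ} (hx : 0 ≤ x) (hy : 0 ≤ y) (i j : ℕ) :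
    x ^ i * y ^ j ≤ x ^ (i + j) + y ^ (i + j) := by
  rcases le_total x y with h | h
  · have : x ^ i * y ^ j ≤ y ^ i * y ^ j := by gcongr
    rw [← pow_add] at this
    have h2 : 0 ≤ x ^ (i + j) := pow_nonneg hx _
    linarith
  · have : x ^ i * y ^ j ≤ x ^ i * x ^ j := by gcongr
    rw [← pow_add] at this
    have h2 : 0 ≤ y ^ (i + j) := pow_nonneg hy _
    linarith

theorem avg_sum (K : ℝ) (hK : 1 ≤ K) (hpair : ∀ x : ℕ, 2 ≤ x → ∀ σ : ℤ, (σ = 1 ∨ σ = -1) → ∀ h : ℕ,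
    1 ≤ h → (Set.ncard {t : ℕ | t ≤ x ∧ t.Prime ∧ (Int.natAbs (σ * t + h)).Prime} : ℝ) ≤
      K * (x / Real.log x ^ 2) * gg h ^ 2) (j : ℕ) (D : ℝ)
    (hmom : ∀ Y : ℕ, ∑ h ∈ Icc 1 Y, gg h ^ (j + 2) ≤ D * Y) (b : ℤ) (M : ℕ) (S : Finset ℕ) (hM : 2 ≤ M)
    (hbM : b.natAbs ≤ M) (hS : ∀ p ∈ S, p.Prime ∧ p ≤ M ∧ b.natAbs < p) :
    ∑ z ∈ S.offDiag, gg ((z.1 + z.2 + b : ℤ).toNat) ^ j ≤ K * (5 * D) * (M / Real.log M) ^ 2 := by
  classical
  have hMr : (2 : ℝ) ≤ M := by exact_mod_cast hM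
  have hl : 0 < Real.log M := Real.log_pos (by linarith)
  have hg0 : ∀ n, 0 ≤ gg n := fun n => by linarith [one_le_gg n]
  obtain ⟨U, hU⟩ : ∃ U : Finset ℕ, U = (Icc 1 (2 * M)).filter (fun s : ℕ => 0 < (s : ℤ) + b) := ⟨_, rfl⟩
  have hmap : ∀ z ∈ S.offDiag, z.1 + z.2 ∈ U := by
    intro z hz
    rw [mem_offDiag] at hz
    obtain ⟨h1, h2, -⟩ := hz
    have h3 := hS _ h1
    have h4 := hS _ h2
    have h5 := h3.1.pos
    rw [hU, mem_filter, mem_Icc]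
    refine ⟨⟨by omega, by omega⟩, ?_⟩
    push_cast
    omega
  rw [← Finset.sum_fiberwise_of_maps_to hmap]
  have h1 : ∀ s ∈ U, ∑ z ∈ S.offDiag.filter (fun z => z.1 + z.2 = s),
      gg ((z.1 + z.2 + b : ℤ).toNat) ^ j ≤
      K * (M / Real.log M ^ 2) * (gg ((s + b : ℤ).toNat) ^ (j + 2) + gg s ^ (j + 2)) := by
    intro s hs
    rw [hU, mem_filter, mem_Icc] at hs
    have h2 : ∑ z ∈ S.offDiag.filter (fun z => z.1 + z.2 = s), gg ((z.1 + z.2 + b : ℤ).toNat) ^ j =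
        #(S.offDiag.filter (fun z => z.1 + z.2 = s)) * gg ((s + b : ℤ).toNat) ^ j := by
      rw [← nsmul_eq_mul, ← Finset.sum_const]
      apply Finset.sum_congr rfl
      intro z hz
      have e := (mem_filter.1 hz).2
      rw [← e]
      push_cast
      rfl
    have h3 := hpair M hM (-1) (Or.inr rfl) s hs.1.1
    have h4 : #(S.offDiag.filter (fun z => z.1 + z.2 = s)) ≤
        Set.ncard {t : ℕ | t ≤ M ∧ t.Prime ∧ (Int.natAbs (-1 * t + s)).Prime} := by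
      have h5 : (((S.offDiag.filter (fun z => z.1 + z.2 = s)).image (fun z => z.1) : Finset ℕ) : Set ℕ) ⊆
          {t : ℕ | t ≤ M ∧ t.Prime ∧ (Int.natAbs (-1 * t + s)).Prime} := by
        intro t ht
        rw [mem_coe, mem_image] at ht
        obtain ⟨z, hz, rfl⟩ := ht
        rw [mem_filter, mem_offDiag] at hz
        obtain ⟨⟨hz1, hz2, -⟩, hz4⟩ := hz
        refine ⟨(hS _ hz1).2.1, (hS _ hz1).1, ?_⟩
        have e : Int.natAbs (-1 * (z.1 : ℤ) + s) = z.2 := by omega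
        rw [e]
        exact (hS _ hz2).1
      have h6 := Set.ncard_le_ncard h5 ((Set.finite_Iic M).subset (fun t ht => ht.1))
      rw [Set.ncard_coe_finset] at h6
      refine le_trans (le_of_eq ?_) h6
      rw [card_image_of_injOn]
      intro z hz z' hz' hzz
      rw [mem_coe, mem_filter] at hz hz'
      have hzz' : z.1 = z'.1 := hzz
      have e1 := hz.2
      have e2 := hz'.2
      exact Prod.ext hzz' (by omega)
    have h5 : (#(S.offDiag.filter (fun z => z.1 + z.2 = s)) : ℝ) ≤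
        K * (M / Real.log M ^ 2) * gg s ^ 2 := le_trans (by exact_mod_cast h4) h3
    rw [h2]
    have hg : 0 ≤ gg ((s + b : ℤ).toNat) ^ j := pow_nonneg (hg0 _) _
    calc (#(S.offDiag.filter (fun z => z.1 + z.2 = s)) : ℝ) * gg ((s + b : ℤ).toNat) ^ j ≤
          (K * (M / Real.log M ^ 2) * gg s ^ 2) * gg ((s + b : ℤ).toNat) ^ j :=
          mul_le_mul_of_nonneg_right h5 hg
      _ = K * (M / Real.log M ^ 2) * (gg ((s + b : ℤ).toNat) ^ j * gg s ^ 2) := by ring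
      _ ≤ K * (M / Real.log M ^ 2) * (gg ((s + b : ℤ).toNat) ^ (j + 2) + gg s ^ (j + 2)) := by
          apply mul_le_mul_of_nonneg_left _ (by positivity)
          exact mix (hg0 _) (hg0 _) j 2
  refine (Finset.sum_le_sum h1).trans ?_
  rw [← Finset.mul_sum, Finset.sum_add_distrib]
  have h2 : ∑ s ∈ U, gg s ^ (j + 2) ≤ D * ((2 * M : ℕ) : ℝ) := by
    refine le_trans ?_ (hmom (2 * M))
    apply Finset.sum_le_sum_of_subset_of_nonneg
    · rw [hU]; exact filter_subset _ _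
    · intro s _ _; exact pow_nonneg (hg0 _) _
  have h3 : ∑ s ∈ U, gg ((s + b : ℤ).toNat) ^ (j + 2) ≤ D * ((3 * M : ℕ) : ℝ) := by
    refine le_trans ?_ (hmom (3 * M))
    rw [← Finset.sum_image (f := fun n => gg n ^ (j + 2)) (g := fun s : ℕ => ((s : ℤ) + b).toNat)
      (fun s hs s' hs' h => by
        rw [mem_coe, hU, mem_filter] at hs hs'
        have h' : ((s : ℤ) + b).toNat = ((s' : ℤ) + b).toNat := h
        omega)]
    apply Finset.sum_le_sum_of_subset_of_nonneg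
    · intro n hn
      obtain ⟨s, hs, rfl⟩ := mem_image.1 hn
      rw [hU, mem_filter, mem_Icc] at hs
      rw [mem_Icc]
      omega
    · intro n _ _; exact pow_nonneg (hg0 _) _
  push_cast at h2 h3
  calc K * (M / Real.log M ^ 2) * (∑ s ∈ U, gg ((s + b : ℤ).toNat) ^ (j + 2) + ∑ s ∈ U, gg s ^ (j + 2)) ≤
        K * (M / Real.log M ^ 2) * (5 * D * M) := by
        apply mul_le_mul_of_nonneg_left _ (by positivity)
        linarith
    _ = K * (5 * D) * (M / Real.log M) ^ 2 := by field_simp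

lemma trunc {t T : ℝ} (ht : 0 ≤ t) (hT : 0 < T) (k : ℕ) : t ≤ T + T * (t ^ (k + 1) / T ^ (k + 1)) := by
  rcases le_total t T with h | h
  · have : 0 ≤ T * (t ^ (k + 1) / T ^ (k + 1)) := by positivity
    linarith
  · have h1 : 1 ≤ (t / T) ^ k := one_le_pow₀ ((one_le_div hT).2 h)
    have h2 : T * (t ^ (k + 1) / T ^ (k + 1)) = t * (t / T) ^ k := by
      rw [← div_pow, pow_succ]
      field_simp
    rw [h2]
    nlinarith

/-- the average of `gg ^ 2` over the differences of the values at a set of primes of density `e^(-k)` -/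
theorem avg_f : ∃ C : ℝ, 1 ≤ C ∧ ∀ (b c : ℤ) (k M : ℕ) (S : Finset ℕ), 1 ≤ k → 2 ≤ M → b.natAbs ≤ M →
    (∀ p ∈ S, p.Prime ∧ p ≤ M ∧ b.natAbs + c.natAbs + 3 ≤ p) →
    Real.exp (-(k : ℝ)) * (M / Real.log M) ≤ #S →
    ∑ z ∈ (S.image (u b c)).offDiag, gg (Nat.dist z.1 z.2) ^ 2 ≤
      C * Real.log (4 * k + 2 : ℕ) ^ 6 * (#S : ℝ) ^ 2 := by
  classical
  obtain ⟨K, hK, hpair⟩ := pair_bound
  obtain ⟨C, hC, hmom⟩ := moment_m
  refine ⟨(1 + 7 * K) * (Real.exp 2 * C ^ 6), ?_, fun b c k M S hk hM hbM hS hcard => ?_⟩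
  · have h1 : 1 ≤ C ^ 6 := one_le_pow₀ hC
    have h2 : 1 ≤ Real.exp 2 := Real.one_le_exp (by norm_num)
    have h3 : 1 ≤ Real.exp 2 * C ^ 6 := by nlinarith
    nlinarith
  have hg0 : ∀ n, 0 ≤ gg n := fun n => by linarith [one_le_gg n]
  have hMr : (2 : ℝ) ≤ M := by exact_mod_cast hM
  have hl : 0 < Real.log M := Real.log_pos (by linarith)
  have hinj : ∀ p ∈ S, ∀ q ∈ S, u b c p = u b c q → p = q := by
    intro p hp q hq h
    have h3 := u_dist b c p q (hS p hp).2.2 (hS q hq).2.2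
    rw [h, Nat.dist_self] at h3
    have h4 := (hS p hp).2.2
    have h5 := (hS q hq).2.2
    rcases Nat.mul_eq_zero.1 h3.symm with h6 | h6
    · exact Nat.eq_of_dist_eq_zero h6
    · omega
  have hsub : (S.image (u b c)).offDiag ⊆ S.offDiag.image (fun z : ℕ × ℕ => (u b c z.1, u b c z.2)) := by
    intro z hz
    rw [mem_offDiag, mem_image, mem_image] at hz
    obtain ⟨⟨p, hp, hpe⟩, ⟨q, hq, hqe⟩, hne⟩ := hz
    rw [mem_image]
    refine ⟨(p, q), ?_, ?_⟩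
    · rw [mem_offDiag]
      refine ⟨hp, hq, ?_⟩
      rintro h
      apply hne
      have h' : p = q := h
      rw [← hpe, ← hqe, h']
    · exact Prod.ext hpe hqe
  have h3 : ∑ z ∈ (S.image (u b c)).offDiag, gg (Nat.dist z.1 z.2) ^ 2 ≤
      ∑ z ∈ S.offDiag.image (fun z : ℕ × ℕ => (u b c z.1, u b c z.2)), gg (Nat.dist z.1 z.2) ^ 2 :=
    Finset.sum_le_sum_of_subset_of_nonneg hsub (fun z _ _ => sq_nonneg _)
  refine h3.trans ?_
  rw [Finset.sum_image (fun z hz z' hz' h => by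
    rw [mem_coe, mem_offDiag] at hz hz'
    have h4 := congrArg Prod.fst h
    have h5 := congrArg Prod.snd h
    exact Prod.ext (hinj _ hz.1 _ hz'.1 h4) (hinj _ hz.2.1 _ hz'.2.1 h5))]
  obtain ⟨k', rfl⟩ : ∃ k', k = k' + 1 := ⟨k - 1, by omega⟩
  obtain ⟨hD1, hDm⟩ := hmom (4 * (k' + 1) + 2) (by omega)
  set L : ℝ := Real.log ((4 * (k' + 1) + 2 : ℕ) : ℝ) with hL
  set D : ℝ := C * L with hD
  set T : ℝ := Real.exp 2 * D ^ 6 with hT
  have hTpos : 0 < T := by positivity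
  have h4 : ∀ z ∈ S.offDiag, gg (Nat.dist (u b c z.1) (u b c z.2)) ^ 2 ≤
      T + T / T ^ (k' + 1) * (gg (Nat.dist z.1 z.2) ^ (4 * (k' + 1)) +
        gg ((z.1 + z.2 + b : ℤ).toNat) ^ (4 * (k' + 1))) := by
    intro z hz
    rw [mem_offDiag] at hz
    have hz1 := (hS _ hz.1).2.2
    have hz2 := (hS _ hz.2.1).2.2
    have hd : 0 < Nat.dist z.1 z.2 := Nat.dist_pos_of_ne hz.2.2
    rw [u_dist b c _ _ hz1 hz2]
    have h5 := gg_mul_le (Nat.dist z.1 z.2) ((z.1 + z.2 + b : ℤ).toNat) hd (by omega)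
    set x := gg (Nat.dist z.1 z.2)
    set y := gg ((z.1 + z.2 + b : ℤ).toNat)
    have hx : 0 ≤ x := hg0 _
    have hy : 0 ≤ y := hg0 _
    have h6 : gg (Nat.dist z.1 z.2 * (z.1 + z.2 + b : ℤ).toNat) ^ 2 ≤ (x * y) ^ 2 := by
      have := hg0 (Nat.dist z.1 z.2 * (z.1 + z.2 + b : ℤ).toNat)
      gcongr
    have h7 := trunc (t := (x * y) ^ 2) (by positivity) hTpos k'
    have h8 : ((x * y) ^ 2) ^ (k' + 1) ≤ x ^ (4 * (k' + 1)) + y ^ (4 * (k' + 1)) := by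
      have := mix hx hy (2 * (k' + 1)) (2 * (k' + 1))
      have e : ((x * y) ^ 2) ^ (k' + 1) = x ^ (2 * (k' + 1)) * y ^ (2 * (k' + 1)) := by
        rw [← pow_mul, mul_pow]
      rw [e]
      have e2 : 2 * (k' + 1) + 2 * (k' + 1) = 4 * (k' + 1) := by ring
      rwa [e2] at this
    calc gg (Nat.dist z.1 z.2 * (z.1 + z.2 + b : ℤ).toNat) ^ 2 ≤ (x * y) ^ 2 := h6
      _ ≤ T + T * (((x * y) ^ 2) ^ (k' + 1) / T ^ (k' + 1)) := h7
      _ ≤ T + T * ((x ^ (4 * (k' + 1)) + y ^ (4 * (k' + 1))) / T ^ (k' + 1)) := by gcongr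
      _ = _ := by ring
  refine (Finset.sum_le_sum h4).trans ?_
  rw [Finset.sum_add_distrib, Finset.sum_const, nsmul_eq_mul, ← Finset.mul_sum, Finset.sum_add_distrib]
  have h5 := avg_diff K hK hpair (4 * (k' + 1)) (D ^ (4 * (k' + 1) + 2)) hDm M S hM
    (fun p hp => ⟨(hS p hp).1, (hS p hp).2.1⟩)
  have h6 := avg_sum K hK hpair (4 * (k' + 1)) (D ^ (4 * (k' + 1) + 2)) hDm b M S hM hbM
    (fun p hp => ⟨(hS p hp).1, (hS p hp).2.1, by
      have := (hS p hp).2.2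
      omega⟩)
  set Y : ℝ := (M : ℝ) / Real.log M with hY
  have hYpos : 0 ≤ Y := by positivity
  have hoff : (#S.offDiag : ℝ) ≤ (#S : ℝ) ^ 2 := by
    have : #S.offDiag ≤ #S ^ 2 := by
      rw [Finset.offDiag_card, sq]
      exact Nat.sub_le _ _
    exact_mod_cast this
  have hTk : D ^ (4 * (k' + 1) + 2) / T ^ (k' + 1) ≤ Real.exp (-(2 * ((k' : ℝ) + 1))) := by
    have e1 : T ^ (k' + 1) = Real.exp (2 * ((k' : ℝ) + 1)) * (D ^ 6) ^ (k' + 1) := by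
      rw [hT, mul_pow (Real.exp 2) (D ^ 6), ← Real.exp_nat_mul]
      congr 2
      push_cast
      ring
    rw [div_le_iff₀ (by positivity), e1, ← mul_assoc, ← Real.exp_add]
    have e : -(2 * ((k' : ℝ) + 1)) + 2 * ((k' : ℝ) + 1) = 0 := by ring
    rw [e, Real.exp_zero, one_mul, ← pow_mul]
    exact pow_le_pow_right₀ hD1 (by omega)
  have hexp : Real.exp (-(2 * ((k' : ℝ) + 1))) * Y ^ 2 ≤ (#S : ℝ) ^ 2 := by
    have e : Real.exp (-(2 * ((k' : ℝ) + 1))) * Y ^ 2 =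
        (Real.exp (-((k' + 1 : ℕ) : ℝ)) * Y) ^ 2 := by
      rw [mul_pow, ← Real.exp_nat_mul]
      congr 2
      push_cast
      ring
    rw [e]
    gcongr
  calc (#S.offDiag : ℝ) * T + T / T ^ (k' + 1) * (∑ z ∈ S.offDiag, gg (Nat.dist z.1 z.2) ^ (4 * (k' + 1)) +
        ∑ z ∈ S.offDiag, gg ((z.1 + z.2 + b : ℤ).toNat) ^ (4 * (k' + 1)))
      ≤ (#S : ℝ) ^ 2 * T + T / T ^ (k' + 1) * (2 * K * D ^ (4 * (k' + 1) + 2) * Y ^ 2 +
        K * (5 * D ^ (4 * (k' + 1) + 2)) * Y ^ 2) := by gcongr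
    _ = (#S : ℝ) ^ 2 * T + 7 * K * T * ((D ^ (4 * (k' + 1) + 2) / T ^ (k' + 1)) * Y ^ 2) := by ring
    _ ≤ (#S : ℝ) ^ 2 * T + 7 * K * T * (Real.exp (-(2 * ((k' : ℝ) + 1))) * Y ^ 2) := by gcongr
    _ ≤ (#S : ℝ) ^ 2 * T + 7 * K * T * (#S : ℝ) ^ 2 := by gcongr
    _ = (1 + 7 * K) * (Real.exp 2 * C ^ 6) * L ^ 6 * (#S : ℝ) ^ 2 := by
        rw [hT, hD]; ring

end Pool.Agent.Zk45.DR
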