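import Pool.Agent.Zk45.DR.Avg

/-!
# High moments of the singular factor over the differences of squares
-/

set_option autoImplicit false
set_option maxHeartbeats 1000000

namespace Pool.Agent.Zk45.DR

open Finset Pool.Agent.H197R2.PG
open Pool.Agent.TH685.Sq (gg_mul_le dist_sq)

theorem diffI (j : ℕ) (D : ℝ) (hmom : ∀ Y : ℕ, ∑ h ∈ Icc 1 Y, gg h ^ j ≤ D * Y) (M : ℕ)
    (S : Finset ℕ) (hS : ∀ p ∈ S, 1 ≤ p ∧ p ≤ M) :
    ∑ z ∈ S.offDiag, gg (Nat.dist z.1 z.2) ^ j ≤ 2 * D * (M : ℝ) ^ 2 := by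
  classical
  have hg0 : ∀ n, 0 ≤ gg n := fun n => by linarith [one_le_gg n]
  have h1 := Pool.Agent.TH685.TI.sum_offDiag_le S M (fun a ha b hb hab => by
    have h2 := (hS a ha).2
    have h3 := (hS b hb).2
    rw [mem_Icc]
    refine ⟨Nat.dist_pos_of_ne hab, ?_⟩
    rcases le_total a b with h | h
    · rw [Nat.dist_eq_sub_of_le h]; omega
    · rw [Nat.dist_eq_sub_of_le_right h]; omega) (fun n => gg n ^ j) (fun n => pow_nonneg (hg0 n) _)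
  refine h1.trans ?_
  have hSM : #S ≤ M := by
    have : S ⊆ Icc 1 M := fun p hp => mem_Icc.2 (hS p hp)
    have := card_le_card this
    rwa [Nat.card_Icc, Nat.add_sub_cancel] at this
  have h2 : ∀ h ∈ Icc 1 M, 2 * (gg h ^ j * (#(S.filter (fun m => m + h ∈ S)) : ℝ)) ≤
      2 * M * gg h ^ j := by
    intro h _
    have h6 : (#(S.filter (fun m => m + h ∈ S)) : ℝ) ≤ M :=
      by exact_mod_cast (card_filter_le _ _).trans hSM
    have hg : 0 ≤ gg h ^ j := pow_nonneg (hg0 h) _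
    nlinarith [mul_le_mul_of_nonneg_left h6 hg]
  refine (Finset.sum_le_sum h2).trans ?_
  rw [← Finset.mul_sum]
  have h3 := hmom M
  calc 2 * (M : ℝ) * ∑ h ∈ Icc 1 M, gg h ^ j ≤ 2 * M * (D * M) := by gcongr
    _ = 2 * D * (M : ℝ) ^ 2 := by ring

theorem sumI (j : ℕ) (D : ℝ) (hmom : ∀ Y : ℕ, ∑ h ∈ Icc 1 Y, gg h ^ j ≤ D * Y) (M : ℕ)
    (S : Finset ℕ) (hS : ∀ p ∈ S, 1 ≤ p ∧ p ≤ M) :
    ∑ z ∈ S.offDiag, gg (z.1 + z.2) ^ j ≤ 2 * D * (M : ℝ) ^ 2 := by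
  classical
  have hg0 : ∀ n, 0 ≤ gg n := fun n => by linarith [one_le_gg n]
  have hSM : #S ≤ M := by
    have : S ⊆ Icc 1 M := fun p hp => mem_Icc.2 (hS p hp)
    have := card_le_card this
    rwa [Nat.card_Icc, Nat.add_sub_cancel] at this
  have hmap : ∀ z ∈ S.offDiag, z.1 + z.2 ∈ Icc 1 (2 * M) := by
    intro z hz
    rw [mem_offDiag] at hz
    have h3 := hS _ hz.1
    have h4 := hS _ hz.2.1
    rw [mem_Icc]
    omega
  rw [← Finset.sum_fiberwise_of_maps_to hmap]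
  have h1 : ∀ s ∈ Icc 1 (2 * M), ∑ z ∈ S.offDiag.filter (fun z => z.1 + z.2 = s),
      gg (z.1 + z.2) ^ j ≤ M * gg s ^ j := by
    intro s _
    have h2 : ∑ z ∈ S.offDiag.filter (fun z => z.1 + z.2 = s), gg (z.1 + z.2) ^ j =
        #(S.offDiag.filter (fun z => z.1 + z.2 = s)) * gg s ^ j := by
      rw [← nsmul_eq_mul, ← Finset.sum_const]
      apply Finset.sum_congr rfl
      intro z hz
      rw [(mem_filter.1 hz).2]
    have h4 : #(S.offDiag.filter (fun z => z.1 + z.2 = s)) ≤ #S := by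
      apply card_le_card_of_injOn (fun z => z.1)
      · intro z hz
        rw [mem_coe, mem_filter, mem_offDiag] at hz
        exact hz.1.1
      · intro z hz z' hz' hzz
        rw [mem_coe, mem_filter] at hz hz'
        have hzz' : z.1 = z'.1 := hzz
        have e1 := hz.2
        have e2 := hz'.2
        exact Prod.ext hzz' (by omega)
    rw [h2]
    have h5 : (#(S.offDiag.filter (fun z => z.1 + z.2 = s)) : ℝ) ≤ M := by
      exact_mod_cast h4.trans hSM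
    exact mul_le_mul_of_nonneg_right h5 (pow_nonneg (hg0 _) _)
  refine (Finset.sum_le_sum h1).trans ?_
  rw [← Finset.mul_sum]
  have h3 := hmom (2 * M)
  push_cast at h3
  calc (M : ℝ) * ∑ s ∈ Icc 1 (2 * M), gg s ^ j ≤ M * (D * (2 * M)) := by gcongr
    _ = 2 * D * (M : ℝ) ^ 2 := by ring

/-- the average of `gg ^ 2` over the differences of the squares of a set of density `e^(-k)` -/
theorem avg_sq : ∃ C : ℝ, 1 ≤ C ∧ ∀ (k M : ℕ) (S : Finset ℕ), 1 ≤ k →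
    (∀ p ∈ S, 1 ≤ p ∧ p ≤ M) → Real.exp (-(k : ℝ)) * M ≤ #S →
    ∑ z ∈ (S.image (fun m => m ^ 2)).offDiag, gg (Nat.dist z.1 z.2) ^ 2 ≤
      C * Real.log (4 * k : ℕ) ^ 4 * (#S : ℝ) ^ 2 := by
  classical
  obtain ⟨C, hC, hmom⟩ := moment_m
  refine ⟨5 * (Real.exp 2 * C ^ 4), ?_, fun k M S hk hS hcard => ?_⟩
  · have h1 : 1 ≤ C ^ 4 := one_le_pow₀ hC
    have h2 : 1 ≤ Real.exp 2 := Real.one_le_exp (by norm_num)
    nlinarith
  have hg0 : ∀ n, 0 ≤ gg n := fun n => by linarith [one_le_gg n]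
  have hinj : ∀ p ∈ S, ∀ q ∈ S, p ^ 2 = q ^ 2 → p = q := fun p _ q _ h =>
    Nat.pow_left_injective (n := 2) (by norm_num) h
  have hsub : (S.image (fun m => m ^ 2)).offDiag ⊆ S.offDiag.image (fun z : ℕ × ℕ => (z.1 ^ 2, z.2 ^ 2)) := by
    intro z hz
    rw [mem_offDiag, mem_image, mem_image] at hz
    obtain ⟨⟨p, hp, hpe⟩, ⟨q, hq, hqe⟩, hne⟩ := hz
    rw [mem_image]
    refine ⟨(p, q), ?_, ?_⟩
    · rw [mem_offDiag]
      refine ⟨hp, hq, ?_⟩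
      rintro h
      apply hne
      have h' : p = q := h
      rw [← hpe, ← hqe, h']
    · exact Prod.ext hpe hqe
  have h3 : ∑ z ∈ (S.image (fun m => m ^ 2)).offDiag, gg (Nat.dist z.1 z.2) ^ 2 ≤
      ∑ z ∈ S.offDiag.image (fun z : ℕ × ℕ => (z.1 ^ 2, z.2 ^ 2)), gg (Nat.dist z.1 z.2) ^ 2 :=
    Finset.sum_le_sum_of_subset_of_nonneg hsub (fun z _ _ => sq_nonneg _)
  refine h3.trans ?_
  rw [Finset.sum_image (fun z hz z' hz' h => by
    rw [mem_coe, mem_offDiag] at hz hz'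
    have h4 := congrArg Prod.fst h
    have h5 := congrArg Prod.snd h
    exact Prod.ext (hinj _ hz.1 _ hz'.1 h4) (hinj _ hz.2.1 _ hz'.2.1 h5))]
  obtain ⟨k', rfl⟩ : ∃ k', k = k' + 1 := ⟨k - 1, by omega⟩
  obtain ⟨hD1, hDm⟩ := hmom (4 * (k' + 1)) (by omega)
  set L : ℝ := Real.log ((4 * (k' + 1) : ℕ) : ℝ) with hL
  set D : ℝ := C * L with hD
  set T : ℝ := Real.exp 2 * D ^ 4 with hT
  have hTpos : 0 < T := by positivity
  have h4 : ∀ z ∈ S.offDiag, gg (Nat.dist (z.1 ^ 2) (z.2 ^ 2)) ^ 2 ≤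
      T + T / T ^ (k' + 1) * (gg (Nat.dist z.1 z.2) ^ (4 * (k' + 1)) + gg (z.1 + z.2) ^ (4 * (k' + 1))) := by
    intro z hz
    rw [mem_offDiag] at hz
    have hz1 := (hS _ hz.1).1
    have hd : 0 < Nat.dist z.1 z.2 := Nat.dist_pos_of_ne hz.2.2
    rw [dist_sq]
    have h5 := gg_mul_le (Nat.dist z.1 z.2) (z.1 + z.2) hd (by omega)
    set x := gg (Nat.dist z.1 z.2)
    set y := gg (z.1 + z.2)
    have hx : 0 ≤ x := hg0 _
    have hy : 0 ≤ y := hg0 _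
    have h6 : gg (Nat.dist z.1 z.2 * (z.1 + z.2)) ^ 2 ≤ (x * y) ^ 2 := by
      have := hg0 (Nat.dist z.1 z.2 * (z.1 + z.2))
      gcongr
    have h7 := trunc (t := (x * y) ^ 2) (by positivity) hTpos k'
    have h8 : ((x * y) ^ 2) ^ (k' + 1) ≤ x ^ (4 * (k' + 1)) + y ^ (4 * (k' + 1)) := by
      have := mix hx hy (2 * (k' + 1)) (2 * (k' + 1))
      have e : ((x * y) ^ 2) ^ (k' + 1) = x ^ (2 * (k' + 1)) * y ^ (2 * (k' + 1)) := by
        rw [← pow_mul, mul_pow]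
      rw [e]
      have e2 : 2 * (k' + 1) + 2 * (k' + 1) = 4 * (k' + 1) := by ring
      rwa [e2] at this
    calc gg (Nat.dist z.1 z.2 * (z.1 + z.2)) ^ 2 ≤ (x * y) ^ 2 := h6
      _ ≤ T + T * (((x * y) ^ 2) ^ (k' + 1) / T ^ (k' + 1)) := h7
      _ ≤ T + T * ((x ^ (4 * (k' + 1)) + y ^ (4 * (k' + 1))) / T ^ (k' + 1)) := by gcongr
      _ = _ := by ring
  refine (Finset.sum_le_sum h4).trans ?_
  rw [Finset.sum_add_distrib, Finset.sum_const, nsmul_eq_mul, ← Finset.mul_sum, Finset.sum_add_distrib]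
  have h5 := diffI (4 * (k' + 1)) (D ^ (4 * (k' + 1))) hDm M S hS
  have h6 := sumI (4 * (k' + 1)) (D ^ (4 * (k' + 1))) hDm M S hS
  have hoff : (#S.offDiag : ℝ) ≤ (#S : ℝ) ^ 2 := by
    have : #S.offDiag ≤ #S ^ 2 := by
      rw [Finset.offDiag_card, sq]
      exact Nat.sub_le _ _
    exact_mod_cast this
  have hTk : D ^ (4 * (k' + 1)) / T ^ (k' + 1) = Real.exp (-(2 * ((k' : ℝ) + 1))) := by
    have e1 : T ^ (k' + 1) = Real.exp (2 * ((k' : ℝ) + 1)) * (D ^ 4) ^ (k' + 1) := by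
      rw [hT, mul_pow (Real.exp 2) (D ^ 4), ← Real.exp_nat_mul]
      congr 2
      push_cast
      ring
    rw [e1, ← pow_mul, Real.exp_neg]
    have : D ^ (4 * (k' + 1)) ≠ 0 := by positivity
    field_simp
  have hexp : Real.exp (-(2 * ((k' : ℝ) + 1))) * (M : ℝ) ^ 2 ≤ (#S : ℝ) ^ 2 := by
    have e : Real.exp (-(2 * ((k' : ℝ) + 1))) * (M : ℝ) ^ 2 =
        (Real.exp (-((k' + 1 : ℕ) : ℝ)) * M) ^ 2 := by
      rw [mul_pow, ← Real.exp_nat_mul]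
      congr 2
      push_cast
      ring
    rw [e]
    gcongr
  calc (#S.offDiag : ℝ) * T + T / T ^ (k' + 1) * (∑ z ∈ S.offDiag, gg (Nat.dist z.1 z.2) ^ (4 * (k' + 1)) +
        ∑ z ∈ S.offDiag, gg (z.1 + z.2) ^ (4 * (k' + 1)))
      ≤ (#S : ℝ) ^ 2 * T + T / T ^ (k' + 1) * (2 * D ^ (4 * (k' + 1)) * (M : ℝ) ^ 2 +
        2 * D ^ (4 * (k' + 1)) * (M : ℝ) ^ 2) := by gcongr
    _ = (#S : ℝ) ^ 2 * T + 4 * T * ((D ^ (4 * (k' + 1)) / T ^ (k' + 1)) * (M : ℝ) ^ 2) := by ring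
    _ ≤ (#S : ℝ) ^ 2 * T + 4 * T * (#S : ℝ) ^ 2 := by rw [hTk]; gcongr
    _ = 5 * (Real.exp 2 * C ^ 4) * L ^ 4 * (#S : ℝ) ^ 2 := by
        rw [hT, hD]; ring

end Pool.Agent.Zk45.DR
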